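import Pool.Agent.N569.AO.Sep

/-!
# Vassiliev invariants of an explicit order detect all arborescent links with `N` vertices, regular at one end

Starting library: `Pool.Agent.H891R2.Jones.*` (diagrams, `D.fPoly`: the normalised bracket),
`Pool.Agent.H891R2.MT.Defs` (`UDiagram`, `Orients D U`: `D` is the unoriented diagram `U` with directions),
`Pool.Agent.R811.Abc.*` (`Outer4`: a diagram of a 2-tangle `S`; `plain`: two horizontal strands; `S.close false`:
the upper ends are joined with each other and the lower ends too), `Pool.Agent.H832R3.VJ.Defs` (`Dia`: an
oriented diagram with the finite set of its marked points; `Separated d X Y`: some integer valued Vassiliev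
invariant of oriented links of order at most `d` has different values on `X` and `Y`; `unknot`).

From `Pool.Agent.N569.AB` (see `MP_42db45_gt.ArborescentLinks`):

* `Tree`: weighted plane rooted trees; `t.Plain`: no tangles are inserted, that is, `t` is a plane tree with
  integers (weights) at its vertices; `t.tangle`: the sum of a row of `|a|` crossings, `a` the weight of the
  root (`rowN`, `cross`, `hsum`), and of the tangles of the subtrees, each turned by a quarter turn (`rot`);
  `t.link = t.tangle.close false`, the arborescent link of the weighted tree (Conway's algebraic links);
* `t.deg`: the weight of the root plus the number of its children `c` with `c.deg < 0`; `t.kids`: the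
  number of children; `t.mirror`: the tree with the opposite weights;
* `t.Regular`, `t.RootOk`: every vertex `c` apart from the root has `2 ≤ deg c`, or `deg c ≤ -1` (and `c`
  is not a leaf of weight `-1`); the root has `deg ≠ 1`, and in the case `deg = 0` it has at least two children.
  So, given the subtrees, at most two values of the weight of a vertex are excluded; weights of both signs may
  be mixed in an arbitrary way.

New: `size t`, the number of the vertices.

Proof.  By an induction over the tree, `(-A^2 - A^{-2})^N ⟨D⟩` has at most `2^N (2 N + 1)` terms, whatever the
weights are.  A Laurent polynomial with `M` terms which vanishes at `A = 1` to the order `M` is zero, and the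
Taylor coefficients of the normalised bracket at `A = 1` are Vassiliev invariants.  For regular trees the
normalised bracket is not `1`.
-/

set_option autoImplicit false

namespace Pool.Agent.Results.MP_5f6b43_gt.ArborescentOrder

open LaurentPolynomial Pool.Agent.H891R2.Jones Pool.Agent.H891R2.MT
open Pool.Agent.N569.AB Pool.Agent.N569.AO Pool.Agent.H832R3.VJ

/-- Let `t` be a weighted plane tree with at most `N` vertices and arbitrary integers as weights, and let `D` be
an oriented diagram of the arborescent link of `t`.

(1) If the normalised bracket of `D` is not `1`, then `D` is separated from the unknot by Vassiliev invariants of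
order at most `(2^N + 1) (2 N + 1)`.

(2) This is so if `t` or the mirror image of `t` is regular.  So the Vassiliev invariants of order at most
`(2^N + 1) (2 N + 1)` detect the knottedness of all arborescent knots of trees with at most `N` vertices which are
regular at one end, whatever the weights (and the numbers of the crossings) are. -/
theorem result (N : ℕ) (t : Tree) (ht : t.Plain) (hN : size t ≤ N) (D : Diagram t.tangle.P)
    (hD : Orients D t.link) :
    (D.fPoly ≠ 1 → Separated ((2 ^ N + 1) * (2 * N + 1)) ⟨t.tangle.P, inferInstance, D⟩ unknot) ∧
    ((t.Regular ∧ t.RootOk) ∨ (t.mirror.Regular ∧ t.mirror.RootOk) →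
      Separated ((2 ^ N + 1) * (2 * N + 1)) ⟨t.tangle.P, inferInstance, D⟩ unknot) :=
  ⟨fun h => detect_arb N t ht hN D hD inferInstance h,
    fun h => detect_arb N t ht hN D hD inferInstance (ne_one t ht D hD h)⟩

end Pool.Agent.Results.MP_5f6b43_gt.ArborescentOrder
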