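import Pool.Agent.N518.KT.Value
import Pool.Agent.N518.KT.Num

/-!
# Knots with few crossings which are not detected by the Vassiliev invariants of low order

Starting library `Pool.Agent.V11208.FT.Defs`: `Word n` (braid words on `n + 1` strands: lists of letters `(i, e)`,
the crossing `σ_i` or its inverse), `perm`, `Closes`, `Link m` (braid words with closures with `m` numbered
components, modulo the braid relations, conjugation and stabilisation; by the theorems of Alexander and Markov these
are the isotopy classes of links), `SWord n` (singular braid words), `doublePoints`, `res` (the extension of a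
function of braid words to singular braid words by `f(double point) = f(positive) - f(negative)`).

New definitions (`Pool.Agent.N518.KT`): `Knot = Link 1`; `IsKnot w`: the closure of the braid word is a knot;
`closure w h`: this knot; `unknot`: the closure of the braid with one strand; `val v w`: the value of the knot
invariant `v` on the closure of `w` (`0` if this is not a knot); `DegreeLE N v`: `v` is a Vassiliev invariant of order
at most `N` (values in any abelian group).

**Construction.** Let `a = σ₁²`, `b = σ₂²` (three strands), `(a_0, b_0) = (a, b)`, `a_{n+1} = b_n⁻¹ a_n b_n a_n⁻¹`,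
`b_{n+1} = a_n b_n a_n⁻¹ b_n⁻¹`. As `a_n` is a conjugate of `b_n`, the braid `b_n` lies in the term number `d_n` of the lower
central series of the pure braid group, `d_{n+2} = 2 d_{n+1} + d_n`; because of the cancellations in `a_n b_n` its
length is at most `ℓ_n`, `ℓ_{n+2} = 2 ℓ_{n+1} + 6 ℓ_n`. The knots are the closures of `σ₁ σ₂ b_n^q`, `n` odd. That they are
different from the unknot is seen from the Conway polynomial: the Lie algebra element which is the leading term of
`b_n` is mapped to a non-zero multiple of `z^{d_n} [σ₁, σ₂]`, in the group ring of the symmetric group on three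
letters.
-/

set_option autoImplicit false

namespace Pool.Agent.Results.MP_5f6b43_gt.FewCrossings

open Pool.Agent.V11208.FT Pool.Agent.N518.KT

/-- For every `N ≥ 1` there is a sequence of closed 3-braids `K_q`, `q ∈ ℤ`, which are knots, and a number `d` with
`N < d ≤ 6 N`, such that

* `K_q` has a diagram (a closed 3-braid) with at most `2 + 38 N^{3/2} |q|` crossings, and `K_0` is the unknot;
* **not detected in low orders**: all Vassiliev invariants of order less than `d` (in particular those of order at most
  `N`), with values in any abelian group, have on all `K_q` the same value as on the unknot;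
* every Vassiliev invariant `v` of order at most `d` is a linear function of `q` on these knots:
  `v(K_q) - v(unknot) = q (v(K_1) - v(unknot))`;
* **detected in order `d`**: there is a complex valued Vassiliev invariant of order at most `d` (a coefficient of the
  Conway polynomial) with `v(K_q) = v(unknot) + c q` for some `c ≠ 0`; so the knots `K_q` are pairwise different.

So for infinitely many `c` there are non-trivial knots with at most `c` crossings which are not distinguished from the
unknot by the Vassiliev invariants of order at most `((c - 2) / 38)^{2/3}`: if the Vassiliev invariants of order at most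
`n ≥ 1` detect the unknot among the knots with at most `c` crossings, then `c < 2 + 38 n^{3/2}`. -/
theorem result (N : ℕ) (hN : 1 ≤ N) :
    ∃ (w : ℤ → Word 2) (hw : ∀ q, IsKnot (w q)) (d : ℕ), N < d ∧ d ≤ 6 * N ∧
      (∀ q : ℤ, ((w q).length : ℝ) ≤ 2 + 38 * (N : ℝ) ^ (3 / 2 : ℝ) * |(q : ℝ)|) ∧
      closure (w 0) (hw 0) = unknot ∧
      (∀ (A : Type) [AddCommGroup A] (M : ℕ) (v : Knot → A), M < d → DegreeLE M v →
        ∀ q, v (closure (w q) (hw q)) = v unknot) ∧
      (∀ (A : Type) [AddCommGroup A] (v : Knot → A), DegreeLE d v →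
        ∀ q : ℤ, v (closure (w q) (hw q)) - v unknot =
          q • (v (closure (w 1) (hw 1)) - v unknot)) ∧
      ∃ v : Knot → ℂ, DegreeLE d v ∧ ∃ c : ℂ, c ≠ 0 ∧
        ∀ q : ℤ, v (closure (w q) (hw q)) = v unknot + q * c := by
  obtain ⟨k, h1, h2, h3⟩ := choose_index N hN
  set n := 2 * k + 1 with hn
  set β : FreeGroup (Fin 2) := FreeGroup.mk bw with hβ
  set g : FreeGroup (Fin 2) := (pr (sq 0) (sq 1) n).2 with hg
  have hpg : pmG 2 g = 1 := (pmG_pr n).2
  have hk : ∀ q : ℤ, IsKnot (β * g ^ q).toWord := by
    intro q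
    refine (isKnot_congr ?_).2 isKnot_bw
    rw [pmG_toWord, map_mul, map_zpow, hpg, one_zpow, mul_one, hβ, pmG_mk]
  have hk0 : IsKnot β.toWord := by
    refine (isKnot_congr ?_).2 isKnot_bw
    rw [pmG_toWord, hβ, pmG_mk]
  have hun : closure β.toWord hk0 = unknot := by
    rw [← closure_bw]
    exact closure_congr hk0 isKnot_bw FreeGroup.mk_toWord
  have hL : Lead (io 2) (Tf 2) (dg n) (rec (sqX 0) (sqX 1) n) g :=
    lead_pr (filt 2) (lead_sq 0) (lead_sq 1) n
  have hLq : ∀ q : ℤ, Lead (io 2) (Tf 2) (dg n) (q • rec (sqX 0) (sqX 1) n) (g ^ q) := fun q =>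
    hL.zpow (filt 2) (dg_pos n) q
  have hrel : ∀ m, Rel (dg m) (rec (sqX (0 : Fin 2)) (sqX 1) m) (rec (sg 0) (sg 1) m) := by
    have key : ∀ m, Rel (dg m) (rec (sqX (0 : Fin 2)) (sqX 1) m) (rec (sg 0) (sg 1) m) ∧
        Rel (dg (m + 1)) (rec (sqX (0 : Fin 2)) (sqX 1) (m + 1)) (rec (sg 0) (sg 1) (m + 1)) := by
      intro m
      induction m with
      | zero => exact ⟨rel_sq 1, (rel_sq 0).cr (rel_sq 1)⟩
      | succ m ih =>
        refine ⟨ih.2, ?_⟩
        have h4 := (ih.2.cr ih.1).cr ih.2
        have e : dg (m + 1) + dg m + dg (m + 1) = dg (m + 1 + 1) := by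
          show _ = 2 * dg (m + 1) + dg m
          ring
        rw [e] at h4
        exact h4
    exact fun m => (key m).1
  obtain ⟨γ, hγ, hY⟩ := rec_odd (qs_sq 0) (qs_sq 1) qs_braid k
  have hY' : (con 2).mk' (rec (sg 0) (sg 1) n) = γ • cr (qs 0) (qs 1) := by
    rw [rec_map, ← hY]
    rfl
  have hval : ∀ q : ℤ, cw (dg n) (closure _ (hk q)) =
      cw (dg n) unknot + (-2) ^ (dg n) * ((q * γ : ℤ) : ℂ) := by
    intro q
    refine cw_value (hLq q) (Y := q • rec (sg 0) (sg 1) n) ?_ ?_ (hk q)
    · intro u w
      rw [mul_smul_comm, smul_mul_assoc, map_zsmul, hrel n u w, mul_smul_comm, smul_mul_assoc,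
        map_zsmul, mul_smul_comm]
    · rw [map_zsmul, hY', smul_smul]
  refine ⟨fun q => (β * g ^ q).toWord, hk, dg n, h1, h2, ?_, ?_, ?_, ?_, cw (dg n), degree_cw _,
    (-2) ^ (dg n) * γ, ?_, ?_⟩
  · intro q
    have h4 : (β * g ^ q).norm ≤ 2 + q.natAbs * ln n := by
      refine (FreeGroup.norm_mul_le _ _).trans (Nat.add_le_add ?_ ?_)
      · exact FreeGroup.norm_mk_le
      · refine (norm_zpow_le g q).trans (Nat.mul_le_mul_left _ ?_)
        exact (norm_pr (a := sq 0) (b := sq 1) FreeGroup.norm_mk_le FreeGroup.norm_mk_le n).2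
    have h5 : (((β * g ^ q).toWord.length : ℕ) : ℝ) ≤ ((2 + q.natAbs * ln n : ℕ) : ℝ) := by
      exact_mod_cast h4
    refine h5.trans ?_
    push_cast
    have h6 := ln_real h3
    have h7 : ((q.natAbs : ℕ) : ℝ) = |(q : ℝ)| := by
      rw [← Int.cast_natCast, Int.natCast_natAbs, Int.cast_abs]
    rw [h7]
    have h8 : |(q : ℝ)| * (ln n : ℝ) ≤ |(q : ℝ)| * (38 * (N : ℝ) ^ (3 / 2 : ℝ)) :=
      mul_le_mul_of_nonneg_left h6 (abs_nonneg _)
    linarith
  · rw [← closure_bw]
    refine closure_congr _ isKnot_bw ?_
    rw [FreeGroup.mk_toWord, zpow_zero, mul_one]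
  · intro A _ M v hM hv q
    rw [← hun, ← vG_toWord v (hk q), ← vG_toWord v hk0]
    exact lead_val_lt hv hM (hLq q) β
  · intro A _ v hv q
    rw [← hun, ← vG_toWord v (hk q), ← vG_toWord v (hk 1), ← vG_toWord v hk0,
      lead_val hv (hLq q) β, lead_val hv (hLq 1) β, one_smul, mul_smul_comm, map_zsmul]
  · have : (γ : ℂ) ≠ 0 := by exact_mod_cast hγ
    exact mul_ne_zero (pow_ne_zero _ (by norm_num)) this
  · intro q
    rw [hval q]
    push_cast
    ring

end Pool.Agent.Results.MP_5f6b43_gt.FewCrossings
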