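import Pool.Agent.N569.TC.Ord

/-!
# Vassiliev invariants of one order detect the knottedness of all twisted alternating braids with `r` syllables

Starting library: `Pool.Agent.H891R2.Jones.*` (link diagrams, `Diagram.IsClosed`, `Diagram.fPoly`),
`Pool.Agent.W639.RB.Defs` (`(draw (braidClosure m) W).close`: the diagram of the closed braid of the word `W`; a letter
`σ_i^{±1}` is a pair of its sign, `true` for a positive crossing, and of the number `i`, `0 ≤ i`, `i + 1 < m`, of the
first one of the two strands), `Pool.Agent.TH561.PB.State2` (`TW s n k a`: the word of `a` full twists, positive for `s =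
true`, negative for `s = false`, of the `n` strands `k, …, k + n - 1`), `Pool.Agent.H832R3.VJ.Defs` (`Dia`: an oriented
diagram with the finite set of its marked points; `Separated d X Y`: some integer valued Vassiliev invariant of oriented
links of order at most `d` has different values on `X` and `Y`; `unknot`).

From `Pool.Agent.N569.TC`: an item (`It`) is a letter `σ_i^{±1}` or consists of `a ≥ 1` positive full twists of the
last `n` of the `m` strands (`It.Fits`; it is `Simple` if it is a letter or one full twist, `a = 1`);
`Lst x n = x_1^{n_1} ⋯ x_r^{n_r}` (the item `x_i` is repeated `n_i` times); `wd m L`: the braid word of a list of items;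
`sgd s W`: the word `W` for `s = true`, the word with the opposite signs (the mirror image) for `s = false`;
`cl m W`: the closure of the braid word `W` with its marked points.

A path `s : Fin m → Fin 2` of steps up (`0`) and down (`1`) is read from the right: `Hh s i` is its height after the
steps `m - 1, …, i`, so `Hh s m = 0`; `Vd s`: no height is negative; `Pk i s`: there is a peak between the steps
`i + 1` and `i`; `It.OK s x`: for a positive letter `σ_i` the path has a peak at `i`, for a negative letter
`σ_i^{-1}` it has no peak at `i`, for full twists of `n` strands its height `Hh s (m - n)` is `0` or `1`.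
`pths m L`: the number of the paths `s` with `Vd s`, end height `Hh s 0 ∈ {0, 1}` and `It.OK s x` for all items `x` of
`L`; `FE m L K = 6 p - 2 q + 3 ∑ a (n² - (n mod 2)) - 2 + 2 (m mod 2)`, where `p` and `q` are the numbers of the positive
and negative letters of `L` and the sum is over all full twists (`a` full twists of `n` strands), those of `L` and the
`K` full twists of all the `m` strands.  `Alt m c L`: the positive letters of `L` are at gaps (`i`) of parity `c`, the
negative letters at gaps of the other parity, and for every full twist of `n < m` strands the gap `m - n - 1` next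
to the bundle is one of the negative gaps; `Full m L`: all the generators occur.

`aword m c g n = σ_{g_1}^{± n_1} ⋯ σ_{g_r}^{± n_r}` with the sign `+` at the gaps `g_i` of parity `c` and the sign `-` at
the other gaps.
-/

set_option autoImplicit false

namespace Pool.Agent.Results.MP_5f6b43_gt.TwistedAlternating

open Finset LaurentPolynomial Pool.Agent.H891R2.Jones Pool.Agent.W639.RB Pool.Agent.TH561 Pool.Agent.N569.TW
  Pool.Agent.N569.TC Pool.Agent.H832R3.VJ

/-- For all numbers `m ≥ 3` of strands and `r` of syllables there is an order `d` with the following properties.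

(1) Let `L = x_1^{n_1} ⋯ x_r^{n_r}`, where every `x_i` is a letter or one full twist of some last strands and the
exponents `n_i ≥ 0` are arbitrary, and let `D` be the closure of `L` followed by `K ≥ 1` positive full twists `Δ^{2K}` of
all the strands, or the mirror image of such a diagram.  If there is a path with all conditions and `FE m L K ≠ 0`, or
if there are at least two such paths, or if the letters of `L` are alternating with all the generators, then `D`
is separated from the unknot by Vassiliev invariants of order at most `d`.

(2) In particular, let `β = σ_{g_1}^{± n_1} ⋯ σ_{g_r}^{± n_r}` be any alternating braid with at most `r` syllables, with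
arbitrary exponents, in which all the generators occur, and let `K ≥ 1`.  Then the closure of `β Δ^{± 2K}` is
separated from the unknot by Vassiliev invariants of order at most `d`. -/
theorem result (m : ℕ) (hm : 3 ≤ m) (r : ℕ) : ∃ d : ℕ,
    (∀ x : Fin r → It, (∀ i, (x i).Fits m ∧ (x i).Simple) → ∀ (n : Fin r → ℕ) (K : ℕ), 1 ≤ K → ∀ s : Bool,
      ∀ L : List It, L = Lst x n → ∀ W : List (Bool × ℕ), W = sgd s (wd m L ++ TW true m 0 K) →
        (draw (braidClosure m) W).close.IsClosed ∧
        ((1 ≤ pths m L ∧ FE m L K ≠ 0) ∨ 2 ≤ pths m L ∨ (∃ c < 2, Alt m c L ∧ Full m L) →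
          Separated d (cl m W) unknot)) ∧
    ∀ (c : ℕ), c < 2 → ∀ (g : Fin r → Fin (m - 1)) (n : Fin r → ℕ),
      (∀ j, j + 1 < m → ∃ i, (g i : ℕ) = j ∧ 1 ≤ n i) → ∀ (K : ℕ), 1 ≤ K → ∀ s : Bool,
      ∀ W : List (Bool × ℕ), W = aword m c g n ++ TW s m 0 K →
        (draw (braidClosure m) W).close.IsClosed ∧ Separated d (cl m W) unknot := by
  have hm0 : 0 < m := by omega
  obtain ⟨d, hd⟩ := order_syl hm0 r
  refine ⟨d, ?_, ?_⟩
  · rintro x hx n K hK s L rfl W rfl
    have hL := Lst_fits x (fun i => (hx i).1) n
    refine ⟨(full_main hm0 _ hL K hK s).1, fun h => hd x hx n K s (ne_one hm0 _ hL K hK s ?_)⟩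
    rcases h with h | h | h
    · exact Or.inl h
    · exact Or.inr (Or.inl h)
    · exact Or.inr (Or.inr ⟨hm, h⟩)
  · rintro c hc g n hall K hK s W rfl
    rw [← aword_twist hc]
    have hL := Lst_fits (alet m (if s then c else 1 - c) g) (fun i => (alet_ok g i).1) n
    exact ⟨(full_main hm0 _ hL K hK s).1, hd _ (alet_ok g) n K s (ne_one hm0 _ hL K hK s (Or.inr (Or.inr
      ⟨hm, _, by split_ifs <;> omega, alet_alt g n, alet_full g n hall⟩)))⟩

end Pool.Agent.Results.MP_5f6b43_gt.TwistedAlternating
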