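import Pool.Agent.N566.VV.Knots

/-!
# Vassiliev invariants detect the unknot among highly twisted knots

Oriented knots are given by sliced diagrams (`Pool.Agent.H835R2.Knot.Defs`: `Word`, `IsKnot`,
`Isotopic`, `IsInvariant`, `DegreeLE`, `circle`).  The two classes of knots are defined in
`Pool.Agent.N566.VV.Knots`:

* `ArbKnot K D s`: `D` is a diagram of the arborescent (Conway algebraic) knot of the weighted planar
  tree `s` (at least one edge) or of its mirror image; all vertices of `s` have weights of absolute
  value at least `16` or at least `32` neighbours; or all vertices are large (`K² ≤ n² + a²` for `n`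
  neighbours and the weight `a`) or small (`Pool.Agent.N561.V.ArbG`), no two small ones being
  neighbours;
* `RingKnot K M D m ts`: `D` is a diagram of a knot which is the closure of
  `(s_1 s_2 s_1)^{2 m} T_1 U_1 ⋯ T_k U_k` (Conway's basic polyhedron `(2 k)*` with the tangles of trees
  substituted for the vertices, and `m` full twists, `(k, m) ≠ (1, 0)`), or of its mirror image; the
  roots of the trees have at most `d` children and weights of absolute value at least `M d`, for some
  `d`, and the other vertices are large or small, no two small ones being neighbours.
-/

set_option autoImplicit false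

namespace Pool.Agent.Results.MP_5f6b43_gt.VolumeKnots

open Pool.Agent.H835R2.Knot Pool.Agent.N566.VV

/-- **Vassiliev invariants detect the unknot in these classes.**  There are `K` and `M` such that every
knot of the two classes is separated from the unknot by a Vassiliev invariant with rational values;
equivalently its Kontsevich invariant is not that of the unknot. -/
theorem result : ∃ (K : ℕ) (M : ℕ → ℕ), ∀ D : Word,
    ((∃ s, ArbKnot K D s) ∨ ∃ m ts, RingKnot K M D m ts) →
      ∃ (n : ℕ) (w : Word → ℚ), IsInvariant w ∧ DegreeLE n w ∧ w D ≠ w circle := by
  obtain ⟨K, M, -, -, h⟩ := main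
  refine ⟨K, M, fun D hD => ?_⟩
  rcases hD with ⟨s, hs⟩ | ⟨m, ts, hs⟩
  · exact h D (arbVolumes s) (Or.inl ⟨s, hs, rfl⟩)
  · exact h D (ringVolumes m ts) (Or.inr ⟨m, ts, hs, rfl⟩)

end Pool.Agent.Results.MP_5f6b43_gt.VolumeKnots
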